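import Mathlib

/-!
# Static data structures with cells of small degree

The database is a vector of bits (`V → ZMod 2`). A random data structure stores cells of `w` bits;
each bit of each cell is, for given coins, a polynomial of degree at most `d` over `ZMod 2` in the
bits of the database. A query is answered by an adaptive program which probes cells.
-/

set_option autoImplicit false

namespace Pool.Agent.R617.LD

open Finset

/-- an adaptive query program: it probes cells and finally answers -/
inductive Prog (A W O : Type) : Type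
  | done : O → Prog A W O
  | probe : A → (W → Prog A W O) → Prog A W O

namespace Prog
variable {A W O : Type}

/-- the answer on the memory content `m` -/
def out : Prog A W O → (A → W) → O
  | done o, _ => o
  | probe a k, m => out (k (m a)) m

/-- the addresses of the probed cells -/
def addrs : Prog A W O → (A → W) → List A
  | done _, _ => []
  | probe a k, m => a :: addrs (k (m a)) m

lemma out_congr (P : Prog A W O) (m m' : A → W)
    (h : ∀ a ∈ P.addrs m, m' a = m a) : P.out m' = P.out m := by
  induction P with
  | done o => rfl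
  | probe a k ih =>
    have ha : m' a = m a := h a (by simp [Prog.addrs])
    show (k (m' a)).out m' = (k (m a)).out m
    rw [ha]
    apply ih
    intro b hb
    exact h b (by simp [Prog.addrs, hb])

end Prog

/-- A random data structure: `Ω` are the coins, `V` the bits of the database, `A` the addresses of
the cells, `w` the number of bits of a cell, `Q` the queries and `O` the answers. -/
structure DS (Ω V A Q O : Type) (w : ℕ) where
  mem : Ω → (V → ZMod 2) → A → Fin w → ZMod 2
  prog : Ω → Q → Prog A (Fin w → ZMod 2) O

variable {Ω V A Q O : Type} {w : ℕ}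

/-- the answer to the query `q` -/
def DS.answer (D : DS Ω V A Q O w) (ω : Ω) (x : V → ZMod 2) (q : Q) : O :=
  (D.prog ω q).out (D.mem ω x)

/-- the number of probes for the query `q` -/
def DS.probes (D : DS Ω V A Q O w) (ω : Ω) (x : V → ZMod 2) (q : Q) : ℕ :=
  ((D.prog ω q).addrs (D.mem ω x)).length

/-- For given coins, each of the `w` bits of each cell is a polynomial of degree at most `d` over
`ZMod 2` in the bits of the database. -/
def DS.DegreeLE (d : ℕ) (D : DS Ω V A Q O w) : Prop :=
  ∀ (ω : Ω) (a : A) (i : Fin w), ∃ P : MvPolynomial V (ZMod 2), P.totalDegree ≤ d ∧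
    ∀ x : V → ZMod 2, D.mem ω x a i = MvPolynomial.eval x P

/-- `μ` is a probability distribution on the finite set `Ω` -/
structure IsProb [Fintype Ω] (μ : Ω → ℝ) : Prop where
  nonneg : ∀ ω, 0 ≤ μ ω
  sum_one : ∑ ω, μ ω = 1

open Classical in
/-- The Chevalley-Warning argument: if among the databases which agree with `x` outside `U` the
database `x` is the only one with the same answer, then `U` has at most `d * w * probes` elements. -/
theorem unique_bound [Fintype V] (D : DS Ω V A Q O w) {d : ℕ} (hd : D.DegreeLE d)
    (ω : Ω) (x : V → ZMod 2) (q : Q) (U : Finset V)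
    (h : ∀ y : V → ZMod 2, (∀ v, v ∉ U → y v = x v) → D.answer ω y q = D.answer ω x q → y = x) :
    U.card ≤ d * w * D.probes ω x q := by
  by_contra hcon
  push Not at hcon
  choose P hP1 hP2 using fun a i => hd ω a i
  set l := (D.prog ω q).addrs (D.mem ω x) with hl
  have hprob : D.probes ω x q = l.length := rfl
  rw [hprob] at hcon
  let f : (A × Fin w) ⊕ V → MvPolynomial V (ZMod 2)
    | .inl z => P z.1 z.2 - MvPolynomial.C (D.mem ω x z.1 z.2)
    | .inr e => MvPolynomial.X e - MvPolynomial.C (x e)
  let s1 : Finset (A × Fin w) := l.toFinset ×ˢ univ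
  let s2 : Finset V := univ \ U
  let s : Finset ((A × Fin w) ⊕ V) := s1.disjSum s2
  have hdeg1 : ∀ z, (f (.inl z)).totalDegree ≤ d := by
    intro z
    refine (MvPolynomial.totalDegree_sub _ _).trans ?_
    rw [MvPolynomial.totalDegree_C]
    simpa using hP1 z.1 z.2
  have hdeg2 : ∀ e, (f (.inr e)).totalDegree ≤ 1 := by
    intro e
    refine (MvPolynomial.totalDegree_sub _ _).trans ?_
    rw [MvPolynomial.totalDegree_C, MvPolynomial.totalDegree_X]
    simp
  have hsum : ∑ i ∈ s, (f i).totalDegree < Fintype.card V := by
    rw [Finset.sum_disjSum]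
    have h1 : ∑ z ∈ s1, (f (.inl z)).totalDegree ≤ d * w * l.length := by
      calc ∑ z ∈ s1, (f (.inl z)).totalDegree ≤ ∑ _z ∈ s1, d := Finset.sum_le_sum fun z _ => hdeg1 z
        _ = l.toFinset.card * w * d := by
            rw [Finset.sum_const, Finset.card_product, Finset.card_univ, Fintype.card_fin,
              smul_eq_mul]
        _ ≤ l.length * w * d := by
            gcongr
            exact List.toFinset_card_le l
        _ = _ := by ring
    have h2 : ∑ e ∈ s2, (f (.inr e)).totalDegree ≤ s2.card := by
      calc ∑ e ∈ s2, (f (.inr e)).totalDegree ≤ ∑ _e ∈ s2, 1 := Finset.sum_le_sum fun e _ => hdeg2 e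
        _ = s2.card := by simp
    have h3 : s2.card + U.card = Fintype.card V := by
      rw [Finset.card_sdiff_add_card_eq_card (Finset.subset_univ _), Finset.card_univ]
    omega
  have hcw := char_dvd_card_solutions_of_sum_lt 2 (K := ZMod 2) hsum
  have huniq : ∀ y : V → ZMod 2, (∀ i ∈ s, MvPolynomial.eval y (f i) = 0) → y = x := by
    intro y hy
    apply h
    · intro v hv
      have h1 := hy (.inr v) (by
        simp only [s, s2, Finset.inr_mem_disjSum, Finset.mem_sdiff, Finset.mem_univ, true_and]
        exact hv)
      have h2 : y v - x v = 0 := by simpa [f] using h1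
      exact sub_eq_zero.1 h2
    · unfold DS.answer
      apply Prog.out_congr
      intro a ha
      funext i
      have h1 := hy (.inl (a, i)) (by
        simp only [s, s1, Finset.inl_mem_disjSum, Finset.mem_product, List.mem_toFinset,
          Finset.mem_univ, and_true]
        exact ha)
      have h2 : MvPolynomial.eval y (P a i) - D.mem ω x a i = 0 := by
        simpa [f] using h1
      rw [hP2 a i y]
      exact sub_eq_zero.1 h2
  have hone : Fintype.card {y : V → ZMod 2 // ∀ i ∈ s, MvPolynomial.eval y (f i) = 0} = 1 := by
    rw [Fintype.card_eq_one_iff]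
    refine ⟨⟨x, ?_⟩, ?_⟩
    · intro i hi
      rcases i with z | e
      · simp only [f]
        rw [map_sub, MvPolynomial.eval_C, ← hP2 z.1 z.2 x, sub_self]
      · simp only [f]
        rw [map_sub, MvPolynomial.eval_C, MvPolynomial.eval_X, sub_self]
    · rintro ⟨y, hy⟩
      exact Subtype.ext (huniq y hy)
  rw [hone] at hcw
  omega

open Classical in
/-- expected number of probes of a data structure for a decision problem which never answers
`false` wrongly -/
theorem expect_bound [Fintype Ω] [Fintype V] (D : DS Ω V A Q Bool w) {d : ℕ} (hd : D.DegreeLE d)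
    (μ : Ω → ℝ) (hμ : IsProb μ) (Yes : (V → ZMod 2) → Q → Prop)
    (hno : ∀ ω y q, D.answer ω y q = false → ¬ Yes y q)
    (x : V → ZMod 2) (q : Q) (U : Finset V)
    (hU : ∀ y : V → ZMod 2, (∀ v, v ∉ U → y v = x v) → y ≠ x → Yes y q) (ε : ℝ)
    (hε : ∑ ω ∈ univ.filter (fun ω => D.answer ω x q = true), μ ω ≤ ε) :
    (1 - ε) * U.card ≤ d * w * ∑ ω, μ ω * (D.probes ω x q : ℝ) := by
  have h1 : ∀ ω, (if D.answer ω x q = false then μ ω else 0) * (U.card : ℝ) ≤
      d * w * (μ ω * (D.probes ω x q : ℝ)) := by
    intro ω
    have hp : 0 ≤ (d : ℝ) * w * (μ ω * (D.probes ω x q : ℝ)) := by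
      have := hμ.nonneg ω
      positivity
    split_ifs with hf
    · have h2 := unique_bound D hd ω x q U (by
        intro y hy1 hy2
        by_contra hne
        exact hno ω y q (hy2.trans hf) (hU y hy1 hne))
      have h3 : (U.card : ℝ) ≤ d * w * (D.probes ω x q : ℝ) := by exact_mod_cast h2
      calc μ ω * (U.card : ℝ) ≤ μ ω * (d * w * (D.probes ω x q : ℝ)) :=
            mul_le_mul_of_nonneg_left h3 (hμ.nonneg ω)
        _ = _ := by ring
    · simpa using hp
  have h2 := Finset.sum_le_sum (fun ω (_ : ω ∈ (univ : Finset Ω)) => h1 ω)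
  rw [← Finset.sum_mul, ← Finset.mul_sum] at h2
  refine le_trans ?_ h2
  apply mul_le_mul_of_nonneg_right _ (Nat.cast_nonneg _)
  have h3 : ∑ ω, (if D.answer ω x q = false then μ ω else 0) +
      ∑ ω ∈ univ.filter (fun ω => D.answer ω x q = true), μ ω = 1 := by
    rw [Finset.sum_filter, ← Finset.sum_add_distrib]
    refine Eq.trans ?_ hμ.sum_one
    apply Finset.sum_congr rfl
    intro ω _
    cases D.answer ω x q <;> simp
  linarith

/-! ## Random sums -/

/-- the random data structure which stores, for each query `q`, `w` random sums of the values of the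
polynomials `G q t`; it answers `true` if some of them is not `0` -/
noncomputable def sketch {T : Type} [Fintype T] (G : Q → T → MvPolynomial V (ZMod 2)) (w : ℕ) :
    DS (Fin w → T → ZMod 2) V Q Q Bool w where
  mem := fun r x q l => ∑ t, r l t * MvPolynomial.eval x (G q t)
  prog := fun _ q => .probe q (fun c => .done (decide (c ≠ 0)))

lemma sketch_degree {T : Type} [Fintype T] (G : Q → T → MvPolynomial V (ZMod 2)) (w : ℕ) {d : ℕ}
    (hG : ∀ q t, (G q t).totalDegree ≤ d) : (sketch G w).DegreeLE d := by
  intro r q l
  refine ⟨∑ t, MvPolynomial.C (r l t) * G q t, ?_, ?_⟩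
  · refine (MvPolynomial.totalDegree_finsetSum_le ?_)
    intro t _
    refine (MvPolynomial.totalDegree_mul _ _).trans ?_
    rw [MvPolynomial.totalDegree_C, zero_add]
    exact hG q t
  · intro x
    simp [sketch, map_sum]

lemma sketch_answer {T : Type} [Fintype T] (G : Q → T → MvPolynomial V (ZMod 2)) (w : ℕ)
    (r : Fin w → T → ZMod 2) (x : V → ZMod 2) (q : Q) :
    (sketch G w).answer r x q = decide ((sketch G w).mem r x q ≠ 0) := rfl

lemma sketch_probes {T : Type} [Fintype T] (G : Q → T → MvPolynomial V (ZMod 2)) (w : ℕ)
    (r : Fin w → T → ZMod 2) (x : V → ZMod 2) (q : Q) :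
    (sketch G w).probes r x q = 1 := rfl

/-- the answer `true` is never wrong -/
lemma sketch_true {T : Type} [Fintype T] (G : Q → T → MvPolynomial V (ZMod 2)) (w : ℕ)
    (r : Fin w → T → ZMod 2) (x : V → ZMod 2) (q : Q) (h : (sketch G w).answer r x q = true) :
    ∃ t, MvPolynomial.eval x (G q t) ≠ 0 := by
  rw [sketch_answer, decide_eq_true_eq] at h
  by_contra hcon
  push Not at hcon
  apply h
  funext l
  simp [sketch, hcon]

open Classical in
/-- half of the vectors are orthogonal to a nonzero vector -/
lemma card_orth {T : Type} [Fintype T] (g : T → ZMod 2) (hg : ∃ t, g t ≠ 0) :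
    2 * (univ.filter (fun r : T → ZMod 2 => ∑ t, r t * g t = 0)).card =
      Fintype.card (T → ZMod 2) := by
  obtain ⟨t0, ht0⟩ := hg
  have h01 : ∀ a : ZMod 2, a ≠ 0 → a = 1 := by decide
  have hg1 : g t0 = 1 := h01 _ ht0
  have hbij : (univ.filter (fun r : T → ZMod 2 => ∑ t, r t * g t = 0)).card =
      (univ.filter (fun r : T → ZMod 2 => ¬ ∑ t, r t * g t = 0)).card := by
    set e0 : T → ZMod 2 := Pi.single t0 1 with he0
    have hs : ∀ r : T → ZMod 2, ∑ t, (r + e0) t * g t = ∑ t, r t * g t + 1 := by
      intro r
      have : ∀ t, (r + e0) t * g t = r t * g t + (if t = t0 then g t else 0) := by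
        intro t
        rw [Pi.add_apply, add_mul, he0, Pi.single_apply]
        split_ifs <;> simp
      simp_rw [this]
      rw [Finset.sum_add_distrib]
      simp [hg1]
    have hself : ∀ r : T → ZMod 2, r + e0 + e0 = r := by
      intro r
      have h2 : e0 + e0 = 0 := by
        funext t
        exact CharTwo.add_self_eq_zero (e0 t)
      rw [add_assoc, h2, add_zero]
    apply Finset.card_bij (fun r _ => r + e0)
    · intro r hr
      rw [Finset.mem_filter] at hr ⊢
      refine ⟨Finset.mem_univ _, ?_⟩
      rw [hs, hr.2]
      decide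
    · intro r _ r' _ h
      exact add_right_cancel h
    · intro r hr
      rw [Finset.mem_filter] at hr
      refine ⟨r + e0, ?_, hself r⟩
      rw [Finset.mem_filter]
      refine ⟨Finset.mem_univ _, ?_⟩
      rw [hs, h01 _ hr.2]
      decide
  have h := Finset.card_filter_add_card_filter_not (s := (univ : Finset (T → ZMod 2)))
    (fun r : T → ZMod 2 => ∑ t, r t * g t = 0)
  rw [Finset.card_univ] at h
  omega

open Classical in
/-- the answer `false` is wrong with probability at most `2 ^ (- w)` -/
lemma sketch_false {T : Type} [Fintype T] (G : Q → T → MvPolynomial V (ZMod 2)) (w : ℕ)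
    (x : V → ZMod 2) (q : Q) (h : ∃ t, MvPolynomial.eval x (G q t) ≠ 0) :
    2 ^ w * (univ.filter (fun r => (sketch G w).answer r x q = false)).card =
      Fintype.card (Fin w → T → ZMod 2) := by
  have h1 := card_orth (fun t => MvPolynomial.eval x (G q t)) h
  have h2 : univ.filter (fun r => (sketch G w).answer r x q = false) =
      Fintype.piFinset (fun _ : Fin w => univ.filter (fun r : T → ZMod 2 =>
        ∑ t, r t * MvPolynomial.eval x (G q t) = 0)) := by
    ext r
    rw [Finset.mem_filter, Fintype.mem_piFinset, sketch_answer]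
    simp only [Finset.mem_univ, true_and, Finset.mem_filter, decide_eq_false_iff_not, not_not]
    constructor
    · intro h l
      exact congrFun h l
    · intro h
      funext l
      exact h l
  rw [h2, Fintype.card_piFinset, Finset.prod_const, Finset.card_univ, Fintype.card_fin, ← mul_pow,
    h1]
  simp

open Classical in
/-- the random data structure with one probe -/
theorem exists_sketch {T : Type} [Fintype T] (G : Q → T → MvPolynomial V (ZMod 2)) (w : ℕ) {d : ℕ}
    (hG : ∀ q t, (G q t).totalDegree ≤ d) :
    ∃ (Ω : Type) (_ : Fintype Ω) (D : DS Ω V Q Q Bool w), D.DegreeLE d ∧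
      ∀ (x : V → ZMod 2) (q : Q), (∀ ω, D.probes ω x q = 1) ∧
        (∀ ω, D.answer ω x q = true → ∃ t, MvPolynomial.eval x (G q t) ≠ 0) ∧
        ((∃ t, MvPolynomial.eval x (G q t) ≠ 0) →
          2 ^ w * (univ.filter (fun ω => D.answer ω x q = false)).card = Fintype.card Ω) :=
  ⟨Fin w → T → ZMod 2, inferInstance, sketch G w, sketch_degree G w hG, fun x q =>
    ⟨fun ω => sketch_probes G w ω x q, fun ω h => sketch_true G w ω x q h,
      fun h => sketch_false G w x q h⟩⟩

end Pool.Agent.R617.LD
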