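import Pool.Agent.R617.LD.Read

/-! Every function of `k` bits is a polynomial of degree at most `k`; binary numbers. -/

set_option autoImplicit false

namespace Pool.Agent.R617.LD

open Finset

variable {V : Type}

lemma exists_poly [DecidableEq V] (B : Finset V) : ∀ (F : (V → ZMod 2) → ZMod 2),
    (∀ x y, (∀ v ∈ B, x v = y v) → F x = F y) →
    ∃ P : MvPolynomial V (ZMod 2), P.totalDegree ≤ B.card ∧
      ∀ x, MvPolynomial.eval x P = F x := by
  induction B using Finset.induction_on with
  | empty =>
    intro F hF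
    refine ⟨MvPolynomial.C (F 0), ?_, fun x => ?_⟩
    · rw [MvPolynomial.totalDegree_C]
      exact Nat.zero_le _
    · rw [MvPolynomial.eval_C]
      exact hF _ _ (by simp)
  | insert v B hv ih =>
    intro F hF
    have hdep : ∀ a : ZMod 2, ∀ x y : V → ZMod 2, (∀ u ∈ B, x u = y u) →
        F (Function.update x v a) = F (Function.update y v a) := by
      intro a x y h
      apply hF
      intro u hu
      by_cases huv : u = v
      · subst huv
        simp
      · rw [Function.update_of_ne huv, Function.update_of_ne huv]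
        exact h u (Finset.mem_of_mem_insert_of_ne hu huv)
    obtain ⟨P0, h0, h0'⟩ := ih (fun x => F (Function.update x v 0)) (hdep 0)
    obtain ⟨P1, h1, h1'⟩ := ih (fun x => F (Function.update x v 1)) (hdep 1)
    refine ⟨P0 + MvPolynomial.X v * (P1 + P0), ?_, ?_⟩
    · rw [Finset.card_insert_of_notMem hv]
      refine (MvPolynomial.totalDegree_add _ _).trans (max_le (h0.trans (Nat.le_succ _)) ?_)
      refine (MvPolynomial.totalDegree_mul _ _).trans ?_
      rw [MvPolynomial.totalDegree_X]
      have := (MvPolynomial.totalDegree_add P1 P0).trans (max_le h1 h0)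
      omega
    · intro x
      rw [map_add, map_mul, MvPolynomial.eval_X, map_add, h0', h1']
      have h01 : x v = 0 ∨ x v = 1 := by
        generalize x v = a
        revert a
        decide
      rcases h01 with h | h
      · rw [h, zero_mul, add_zero]
        simp only [← h, Function.update_eq_self]
      · rw [h, one_mul]
        have h2 : Function.update x v 1 = x := by rw [← h]; exact Function.update_eq_self v x
        simp only [h2]
        generalize F x = a
        generalize F (Function.update x v 0) = b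
        revert a b
        decide

/-- the number with the bits `c` -/
def val {b : ℕ} (c : Fin b → ZMod 2) : ℕ := ∑ t, if c t = 1 then 2 ^ (t : ℕ) else 0

/-- the bits of a number -/
def enc (b a : ℕ) (t : Fin b) : ZMod 2 := if a.testBit t then 1 else 0

lemma enc_one {b a : ℕ} {t : Fin b} : enc b a t = 1 ↔ a.testBit t = true := by
  unfold enc
  split_ifs with h <;> simp [h]

lemma val_enc (b : ℕ) : ∀ a : ℕ, a < 2 ^ b → val (enc b a) = a := by
  induction b with
  | zero =>
    intro a ha
    have : a = 0 := by simpa using ha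
    subst this
    simp [val]
  | succ b ih =>
    intro a ha
    have h1 := ih (a / 2) (by rw [pow_succ] at ha; omega)
    unfold val at h1 ⊢
    rw [Fin.sum_univ_succ]
    have h2 : ∀ t : Fin b, (if enc (b + 1) a t.succ = 1 then 2 ^ ((t.succ : Fin (b + 1)) : ℕ) else 0) =
        2 * (if enc b (a / 2) t = 1 then 2 ^ (t : ℕ) else 0) := by
      intro t
      have h3 : enc (b + 1) a t.succ = enc b (a / 2) t := by
        unfold enc
        rw [Fin.val_succ, Nat.testBit_succ]
      rw [h3, Fin.val_succ]
      split_ifs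
      · rw [pow_succ]; ring
      · rfl
    rw [Finset.sum_congr rfl (fun t _ => h2 t), ← Finset.mul_sum, h1]
    have h4 : (if enc (b + 1) a 0 = 1 then 2 ^ ((0 : Fin (b + 1)) : ℕ) else 0) = a % 2 := by
      have h5 : (enc (b + 1) a 0 = 1) ↔ a % 2 = 1 := by
        rw [enc_one, Fin.val_zero, Nat.testBit_zero, decide_eq_true_eq]
      by_cases h : a % 2 = 1
      · rw [if_pos (h5.2 h), h]
        simp
      · rw [if_neg (fun h' => h (h5.1 h'))]
        omega
    rw [h4]
    omega

lemma val_lt {b k : ℕ} (c : Fin b → ZMod 2) (h : ∀ t : Fin b, k ≤ (t : ℕ) → c t = 0) :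
    val c < 2 ^ k := by
  unfold val
  rw [← Finset.sum_filter]
  have h1 : ∑ t ∈ univ.filter (fun t : Fin b => c t = 1), 2 ^ (t : ℕ) =
      ∑ t ∈ (univ.filter (fun t : Fin b => c t = 1)).map Fin.valEmbedding, 2 ^ t := by
    rw [Finset.sum_map]
    rfl
  rw [h1]
  apply Nat.geomSum_lt (by norm_num)
  intro t ht
  rw [Finset.mem_map] at ht
  obtain ⟨t', ht', rfl⟩ := ht
  rw [Finset.mem_filter] at ht'
  show (t' : ℕ) < k
  by_contra hcon
  have h2 := h t' (not_lt.1 hcon)
  rw [ht'.2] at h2
  exact absurd h2 (by decide)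

lemma val_pos {b : ℕ} (c : Fin b → ZMod 2) (t : Fin b) (h : c t = 1) : 0 < val c := by
  unfold val
  refine lt_of_lt_of_le ?_ (Finset.single_le_sum (fun _ _ => Nat.zero_le _) (Finset.mem_univ t))
  rw [if_pos h]
  positivity

/-- changing the lowest bit from `0` to `1` -/
lemma val_succ {b : ℕ} (c c' : Fin (b + 1) → ZMod 2) (h0 : c 0 = 0) (h1 : c' 0 = 1)
    (h : ∀ t, t ≠ 0 → c' t = c t) : val c' = val c + 1 := by
  unfold val
  rw [Fin.sum_univ_succ, Fin.sum_univ_succ, h0, h1]
  have h2 : ∀ t : Fin b, (if c' t.succ = 1 then 2 ^ ((t.succ : Fin (b + 1)) : ℕ) else 0) =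
      (if c t.succ = 1 then 2 ^ ((t.succ : Fin (b + 1)) : ℕ) else 0) := by
    intro t
    rw [h _ (Fin.succ_ne_zero t)]
  rw [Finset.sum_congr rfl (fun t _ => h2 t)]
  simp
  ring

end Pool.Agent.R617.LD
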