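import Pool.Agent.R617.LD.Core

/-! Programs which read a fixed list of cells. -/

set_option autoImplicit false

namespace Pool.Agent.R617.LD

open Finset

variable {A W O : Type}

/-- read the cells of a list and answer by a function of their contents -/
def readAll : List A → (List W → O) → Prog A W O
  | [], f => .done (f [])
  | a :: as, f => .probe a (fun c => readAll as (fun cs => f (c :: cs)))

lemma readAll_out (as : List A) (f : List W → O) (m : A → W) :
    (readAll as f).out m = f (as.map m) := by
  induction as generalizing f with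
  | nil => rfl
  | cons a as ih =>
    show (readAll as (fun cs => f (m a :: cs))).out m = _
    rw [ih]
    rfl

lemma readAll_addrs (as : List A) (f : List W → O) (m : A → W) :
    (readAll as f).addrs m = as := by
  induction as generalizing f with
  | nil => rfl
  | cons a as ih =>
    show a :: (readAll as (fun cs => f (m a :: cs))).addrs m = _
    rw [ih]

variable {V Q : Type} {w : ℕ}

/-- The data structure with the cells `(q, a)` for a query `q` and `a < K`, whose bits are the
values of the polynomials `G q b` for `b < K * w`; a query reads its `K` cells and answers `true`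
if some of the bits is `0`. -/
noncomputable def table (G : Q → ℕ → MvPolynomial V (ZMod 2)) (w K : ℕ) :
    DS Unit V (Q × ℕ) Q Bool w where
  mem := fun _ x a l => MvPolynomial.eval x (G a.1 (a.2 * w + l))
  prog := fun _ q => readAll ((List.range K).map (fun a => (q, a)))
    (fun cs => decide (∃ c ∈ cs, ∃ l, c l = 0))

lemma table_degree (G : Q → ℕ → MvPolynomial V (ZMod 2)) (w K : ℕ) {d : ℕ}
    (hG : ∀ q t, (G q t).totalDegree ≤ d) : (table G w K).DegreeLE d :=
  fun _ a l => ⟨G a.1 (a.2 * w + l), hG _ _, fun _ => rfl⟩

lemma table_probes (G : Q → ℕ → MvPolynomial V (ZMod 2)) (w K : ℕ) (x : V → ZMod 2) (q : Q) :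
    (table G w K).probes () x q = K := by
  show ((readAll _ _).addrs _).length = K
  rw [readAll_addrs]
  simp

lemma table_answer (G : Q → ℕ → MvPolynomial V (ZMod 2)) {w : ℕ} (hw : 0 < w) (K : ℕ)
    (x : V → ZMod 2) (q : Q) :
    (table G w K).answer () x q = true ↔ ∃ b, b < K * w ∧ MvPolynomial.eval x (G q b) = 0 := by
  show (readAll _ _).out _ = true ↔ _
  rw [readAll_out, decide_eq_true_eq]
  constructor
  · rintro ⟨c, hc, l, hl⟩
    rw [List.map_map, List.mem_map] at hc
    obtain ⟨a, ha, rfl⟩ := hc
    rw [List.mem_range] at ha
    refine ⟨a * w + l, ?_, hl⟩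
    have := l.2
    calc a * w + l < a * w + w := by omega
      _ = (a + 1) * w := by ring
      _ ≤ K * w := Nat.mul_le_mul_right _ ha
  · rintro ⟨b, hb, hb0⟩
    refine ⟨(table G w K).mem () x (q, b / w), ?_, ⟨b % w, Nat.mod_lt _ hw⟩, ?_⟩
    · rw [List.map_map, List.mem_map]
      refine ⟨b / w, ?_, rfl⟩
      rw [List.mem_range]
      exact Nat.div_lt_of_lt_mul (by rw [mul_comm]; exact hb)
    · show MvPolynomial.eval x (G q (b / w * w + b % w)) = 0
      rw [mul_comm, Nat.div_add_mod]
      exact hb0

end Pool.Agent.R617.LD
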